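import Pool.Agent.H64.ENC.InNP

/-!
# Recognising even-nearly conservative arc weights is coNP-complete

The words that encode a weighted digraph whose weight function is not even-nearly conservative
form a language in `NP`. Every language in `NP` reduces to this one by a reduction computed by a
Turing machine in polynomial time, all of whose values encode symmetric digraphs with weights in
`{-1, 0, 1, 2}` in which every odd cycle passes through the arc `st` or the arc `ts`, for two
vertices `s`, `t`. Hence even-nearly conservative weight functions are recognised by a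
polynomial-time algorithm iff `P = NP`, and for this special case the same holds.
-/

namespace Pool.Agent.Results.MP_d994ca_lc.RecognitionIsCoNPComplete

open Pool.Agent.PPS Pool.Agent.H64.Cook Pool.Agent.H64.ENC

/-- Recognising even-nearly conservative weights is coNP-complete, also for symmetric digraphs
with weights in `{-1, 0, 1, 2}` all of whose odd cycles pass through one of two fixed opposite
arcs; it is possible in polynomial time, in general or in this special case, iff `P = NP`. -/
theorem result :
    {w | ∃ G : WDigraph, Encodes w G ∧ ¬ G.EvenNearlyConservative} ∈ NP ∧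
    (∀ L ∈ NP, ∃ f ∈ FP, ∀ x, ∃ G : WDigraph, Encodes (f x) G ∧ G.Restricted ∧
      (x ∈ L ↔ ¬ G.EvenNearlyConservative)) ∧
    (Recognisable (fun _ => True) ↔ P = NP) ∧
    (Recognisable WDigraph.Restricted ↔ P = NP) := by
  have h1 : P = NP → Recognisable (fun _ => True) := by
    intro h
    have h2 := inNP
    rw [← h, mem_P_iff] at h2
    refine ⟨{w | ¬ ∃ G : WDigraph, Encodes w G ∧ ¬ G.EvenNearlyConservative}, ?_, ?_⟩
    · rw [mem_P_iff]
      have h3 := PT.not' h2
      convert h3 using 2 with w
      rw [Bool.eq_iff_iff]
      simp
    · intro w G hG _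
      simp only [Set.mem_ofPred_eq, not_exists, not_and, not_not]
      exact ⟨fun h => h G hG, fun h G' hG' => (enc_unique hG hG').1 h⟩
  have h2 : Recognisable (fun _ => True) → Recognisable WDigraph.Restricted := by
    rintro ⟨L, hL, h⟩
    exact ⟨L, hL, fun w G hG _ => h w G hG trivial⟩
  have h3 : Recognisable WDigraph.Restricted → P = NP := by
    rintro ⟨M, hM, h⟩
    refine Set.Subset.antisymm P_subset_NP ?_
    intro L hL
    obtain ⟨f, hf, hfL⟩ := hard hL
    rw [mem_FP_iff] at hf
    rw [mem_P_iff] at hM ⊢
    have h4 := PT.not' (hM.comp' hf)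
    convert h4 using 2 with x
    obtain ⟨G, hG, hR, hx⟩ := hfL x
    rw [Bool.eq_iff_iff]
    simp only [decide_eq_true_eq, Bool.not_eq_true', decide_eq_false_iff_not]
    rw [hx, h _ G hG hR]
  exact ⟨inNP, fun L hL => hard hL, ⟨fun h => h3 (h2 h), h1⟩, ⟨h3, fun h => h2 (h1 h)⟩⟩

end Pool.Agent.Results.MP_d994ca_lc.RecognitionIsCoNPComplete
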